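import Pool.Agent.N229.SC.Stm

/-!
Project SC (Schiffer), part EXI: the solution of all the equations.
-/

set_option autoImplicit false

open Set Filter Topology MeasureTheory

namespace Pool.Agent.U924.SC

open Pool.Agent.N229.SC

/-- SC-EXI. -/
theorem proof_EXI (hA1 : S_A1) (hA2 : S_A2) (hFIX : S_FIX) (hSGN : S_SGN) (hHG : S_HG) :
    S_EXI := by
  intro P hP
  obtain ⟨x, hx, hc⟩ := hFIX P hP
  have ha0 : 0 < P.a 0 := lt_of_lt_of_le (by norm_num) hP.a0
  have hs0 : 0 < Real.sqrt (P.a 0) := Real.sqrt_pos.mpr ha0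
  have hle : Real.sqrt (P.a 0) ≤ 5 * Real.sqrt (P.a 0) := by linarith
  have hyp : ∀ X ∈ Icc (Real.sqrt (P.a 0)) (5 * Real.sqrt (P.a 0)),
      Hyp P X (x X).1 (x X).2.1 (x X).2.2 := fun X hX => ⟨hP, hx X hX, hX.1, hX.2⟩
  have h1 := (hSGN P _ _ _ _ (hyp _ (left_mem_Icc.2 hle))).1 rfl
  have h2 := (hSGN P _ _ _ _ (hyp _ (right_mem_Icc.2 hle))).2 rfl
  obtain ⟨X, hX, hX0⟩ := intermediate_value_Icc' hle hc ⟨h2.le, h1.le⟩
  have hH := hyp X hX
  have hs := hH.sol
  have hXpos : 0 < X := hs0.trans_le hX.1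
  refine ⟨X, (x X).1, (x X).2.1, (x X).2.2, hXpos, ?_, hs, ?_, ?_⟩
  · have h3 : Real.sqrt (P.a 0) ≤ 57 / 10 ^ 6 := by
      rw [Real.sqrt_le_left (by norm_num)]
      have := hP.a0'
      norm_num at this ⊢
      linarith
    have := hX.2
    norm_num at h3 ⊢
    linarith
  · obtain ⟨k1, ⟨k2, -, -, -, k2'⟩, k3, k4, ⟨k5, -⟩, k6⟩ := hA2
    obtain ⟨-, csub, -, czero, -, -, -, -, -, cext, -, -, -⟩ := hA1 wW
    have hanti : ∀ j, cf (OO P X (x X).1 (x X).2.1 (x X).2.2) (-j) =
        -cf (OO P X (x X).1 (x X).2.1 (x X).2.2) j := by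
      intro j
      unfold OO
      rw [csub, csub, k2, k2, neg_neg]
      ring
    have hge : ∀ j : ℤ, 0 ≤ j → cf (OO P X (x X).1 (x X).2.1 (x X).2.2) j = 0 := by
      intro j hj
      rcases lt_or_ge j 2 with h | h
      · obtain rfl | rfl : j = 0 ∨ j = 1 := by omega
        · have := hanti 0
          rw [neg_zero] at this
          linarith
        · exact hX0
      · have h5 := k5 (OO P X (x X).1 (x X).2.1 (x X).2.2) j
        rw [if_pos h, hs.eO, czero] at h5
        exact h5.symm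
    refine cext _ _ fun j => ?_
    rw [czero]
    rcases le_total 0 j with h | h
    · exact hge j h
    · have := hanti (-j)
      rw [neg_neg, hge (-j) (by omega), neg_zero] at this
      exact this
  · have h4 := (hHG P X _ _ _ hH 2 5 5 (by norm_num) le_rfl (by norm_num) le_rfl (by norm_num)
      le_rfl hs.nh hs.nv hs.ny).1
    refine h4.trans ?_
    have : 0 ≤ X ^ 2 := sq_nonneg X
    nlinarith

end Pool.Agent.U924.SC
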