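import Pool.Agent.N229.SC.Stm

/-!
Project SC (Schiffer), part FN1: the conformal map.
-/

set_option autoImplicit false

open Set Filter Topology MeasureTheory

namespace Pool.Agent.U924.SC

open Pool.Agent.N229.SC

/-- the elementary estimate -/
theorem exp_est {g b : ℂ} (hg : ‖g‖ ≤ 1 / 100) (hb : ‖b‖ ≤ 1 / 100) :
    ‖Complex.exp g * (1 + b) - 1‖ ≤ 1 / 10 := by
  have h1 : ‖Complex.exp g - 1‖ ≤ 2 * ‖g‖ := Complex.norm_exp_sub_one_le (by linarith)
  have h2 : ‖Complex.exp g‖ ≤ 102 / 100 := by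
    have : Complex.exp g = (Complex.exp g - 1) + 1 := by ring
    rw [this]
    refine (norm_add_le _ _).trans ?_
    rw [norm_one]
    linarith
  have h3 : Complex.exp g * (1 + b) - 1 = (Complex.exp g - 1) + Complex.exp g * b := by ring
  rw [h3]
  refine (norm_add_le _ _).trans ?_
  rw [norm_mul]
  have h4 : ‖Complex.exp g‖ * ‖b‖ ≤ 102 / 100 * (1 / 100) :=
    mul_le_mul h2 hb (norm_nonneg _) (by norm_num)
  linarith

/-- SC-FN1. -/
theorem proof_FN1 (hAB : S_AB) (hB1 : S_B1)
    (hEH : S_EH) (hEV : S_EV) : S_FN1 := by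
  intro P X h v y hF
  have hG := hF.good
  obtain ⟨-, -, -, -, -, -, hn8⟩ := hAB P hG
  have hn0 : P.n ≠ 0 := by
    intro h0
    rw [h0] at hn8
    norm_num at hn8
  have hnpos : 0 < P.n := Nat.pos_of_ne_zero hn0
  have hnC : (P.n : ℂ) ≠ 0 := by exact_mod_cast hn0
  have hnR : (P.n : ℝ) ≠ 0 := by exact_mod_cast hn0
  have hρ0 : 0 < P.ρ := lt_of_lt_of_le (by norm_num) hG.rho
  have hρC : (P.ρ : ℂ) ≠ 0 := by exact_mod_cast hρ0.ne'
  have hRad0 : 0 < Rad := lt_of_lt_of_le one_pos one_le_Rad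
  have hRad1 : 1 < Rad := by norm_num [Rad]
  have hrn : rF P ^ P.n = Rad := by
    unfold rF
    rw [← Real.rpow_natCast, ← Real.rpow_mul hRad0.le, inv_mul_cancel₀ hnR, Real.rpow_one]
  have hr1 : 1 < rF P := Real.one_lt_rpow hRad1 (by positivity)
  have hball : ∀ z ∈ Metric.ball (0 : ℂ) (rF P), ‖z ^ P.n‖ < Rad := by
    intro z hz
    rw [Metric.mem_ball, dist_zero_right] at hz
    rw [norm_pow, ← hrn]
    exact pow_lt_pow_left₀ hz (norm_nonneg z) hn0
  have hX2 := hF.X_le
  have hXp := hF.X_pos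
  have hnh : ‖h‖ ≤ 6 / 10 ^ 4 := by
    have h1 := hF.sol.nh
    norm_num at hX2 ⊢
    linarith
  have hnh' : ‖h‖ ≤ 1 / 1000 := by
    norm_num at hnh ⊢
    linarith
  obtain ⟨⟨nPhi, nbeta, -⟩, -⟩ := hB1 P hG h hnh'
  have hnu0 : 0 ≤ P.nu := le_trans (by norm_num) hG.nu1
  have hPhi1 : ‖Phi P h‖ ≤ 1 / 100 := by
    refine nPhi.trans ?_
    have := mul_le_mul hG.nu2 hnh (norm_nonneg _) (by norm_num)
    refine this.trans ?_
    norm_num
  have hbeta1 : ‖beta P h‖ ≤ 1 / 100 := by
    refine nbeta.trans ?_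
    have := mul_le_mul (mul_le_mul_of_nonneg_left hG.nu2 (by norm_num : (0:ℝ) ≤ 8)) hnh
      (norm_nonneg _) (by norm_num)
    refine this.trans ?_
    norm_num
  obtain ⟨hWd, hWn, -, hWsm, -, hW0, hWder, -⟩ := hEH wW wA_le_wW
  obtain ⟨-, hAn, -⟩ := hEH wA (fun j => le_refl _)
  -- derivative
  have hder : ∀ z ∈ Metric.ball (0 : ℂ) (rF P), HasDerivAt (fF P h)
      (P.ρ * (Complex.exp (evh (Phi P h) (z ^ P.n) / P.n) * (1 + evh (beta P h) (z ^ P.n)))) z := by
    intro z hz
    have ht := hball z hz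
    set t : ℂ := z ^ P.n with htdef
    have htb : t ∈ Metric.ball (0 : ℂ) Rad := by
      rw [Metric.mem_ball, dist_zero_right]
      exact ht
    have hdiff : HasDerivAt (evh (Phi P h)) (deriv (evh (Phi P h)) t) t :=
      ((hWd _).differentiableAt (Metric.isOpen_ball.mem_nhds htb)).hasDerivAt
    have hpow : HasDerivAt (fun z : ℂ => z ^ P.n) ((P.n : ℂ) * z ^ (P.n - 1)) z :=
      hasDerivAt_pow P.n z
    have hcomp : HasDerivAt (fun z : ℂ => evh (Phi P h) (z ^ P.n))
        (deriv (evh (Phi P h)) t * ((P.n : ℂ) * z ^ (P.n - 1))) z := HasDerivAt.comp z hdiff hpow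
    have hz1 : z * z ^ (P.n - 1) = t := by
      rw [htdef, ← pow_succ', Nat.sub_add_cancel hnpos]
    have h2 := (hcomp.div_const (P.n : ℂ)).cexp
    have h3 : HasDerivAt (fun z : ℂ => (P.ρ : ℂ) * z) ((P.ρ : ℂ) * 1) z :=
      (hasDerivAt_id z).const_mul (P.ρ : ℂ)
    have h4 := h3.mul h2
    refine h4.congr_deriv ?_
    have h6 : evh (beta P h) t = t * deriv (evh (Phi P h)) t := hWder (Phi P h) t ht
    rw [h6]
    have h7 : z * (deriv (evh (Phi P h)) t * ((P.n : ℂ) * z ^ (P.n - 1)) / P.n) =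
        t * deriv (evh (Phi P h)) t := by
      rw [← hz1]
      field_simp
    show (P.ρ : ℂ) * 1 * Complex.exp (evh (Phi P h) t / P.n) +
        (P.ρ : ℂ) * z * (Complex.exp (evh (Phi P h) t / P.n) *
          (deriv (evh (Phi P h)) t * ((P.n : ℂ) * z ^ (P.n - 1)) / P.n)) = _
    calc (P.ρ : ℂ) * 1 * Complex.exp (evh (Phi P h) t / P.n) +
        (P.ρ : ℂ) * z * (Complex.exp (evh (Phi P h) t / P.n) *
          (deriv (evh (Phi P h)) t * ((P.n : ℂ) * z ^ (P.n - 1)) / P.n))
        = P.ρ * (Complex.exp (evh (Phi P h) t / P.n) *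
          (1 + z * (deriv (evh (Phi P h)) t * ((P.n : ℂ) * z ^ (P.n - 1)) / P.n))) := by
          ring
      _ = _ := by rw [h7]
  refine ⟨⟨hρ0, hr1, fun z hz => (hder z hz).differentiableAt.differentiableWithinAt, ?_, ?_⟩, ?_⟩
  · unfold fF
    simp
  · intro z hz
    rw [(hder z hz).deriv]
    have ht := (hball z hz).le
    have e1 : ‖evh (Phi P h) (z ^ P.n) / P.n‖ ≤ 1 / 100 := by
      rw [norm_div, Complex.norm_natCast]
      refine (div_le_self (norm_nonneg _) (by linarith)).trans ?_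
      exact (hWn _ _ ht).trans hPhi1
    have e2 : ‖evh (beta P h) (z ^ P.n)‖ ≤ 1 / 100 := (hAn _ _ ht).trans hbeta1
    have e3 := exp_est e1 e2
    have e4 : (P.ρ : ℂ) * (Complex.exp (evh (Phi P h) (z ^ P.n) / P.n) *
        (1 + evh (beta P h) (z ^ P.n))) - P.ρ =
        P.ρ * (Complex.exp (evh (Phi P h) (z ^ P.n) / P.n) *
        (1 + evh (beta P h) (z ^ P.n)) - 1) := by ring
    rw [e4, norm_mul, Complex.norm_real, Real.norm_of_nonneg hρ0.le]
    have := mul_le_mul_of_nonneg_left e3 hρ0.le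
    linarith
  · constructor
    · -- symmetry
      set ω : ℂ := Complex.exp (2 * Real.pi * Complex.I / P.n) with hω
      have hprim : IsPrimitiveRoot ω P.n := Complex.isPrimitiveRoot_exp P.n hn0
      refine ⟨ω, ?_, ?_, ?_⟩
      · exact hprim.norm'_eq_one hn0
      · refine hprim.ne_one ?_
        have : (1 : ℝ) < P.n := by linarith
        exact_mod_cast this
      · intro z _
        unfold fF
        rw [mul_pow, hprim.pow_eq_one, one_mul]
        ring
    · -- two points with different norms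
      have hnorm : ∀ z : ℂ, ‖z‖ = 1 → ‖fF P h z‖ =
          P.ρ * Real.exp (P.nu * (ev h (z ^ P.n)).re / P.n) := by
        intro z hz
        have ht1 : ‖z ^ P.n‖ = 1 := by rw [norm_pow, hz, one_pow]
        obtain ⟨-, -, -, -, -, -, -, -, -, -, evreal⟩ := hEV wW (z ^ P.n) ht1
        have hre := (evreal h hF.sol.hc).1
        have hPhit : evh (Phi P h) (z ^ P.n) = P.nu * evh (hol h) (z ^ P.n) := by
          unfold Phi
          exact hWsm _ _ _
        unfold fF
        rw [norm_mul, norm_mul, hz, mul_one, Complex.norm_exp, Complex.norm_real,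
          Real.norm_of_nonneg hρ0.le, hPhit, ← hre, Complex.div_natCast_re,
          Complex.re_ofReal_mul]
      -- values at `t = 1, -1`
      have hval : ∀ t : ℂ, ‖t‖ = 1 → t⁻¹ = t → |(ev h t).re - X * t.re| ≤ 15 * X ^ 2 := by
        intro t ht hti
        obtain ⟨hn, hadd, hsm, -, hmon, -, ⟨L, hL⟩, -⟩ := hEV wW t ht
        have h1 : ev cc t = t := by
          unfold cc
          rw [hsm, hadd, hmon, hmon, zpow_one, zpow_neg_one, hti]
          push_cast
          ring
        have h2 : ev (h - X • cc) t = ev h t - X * t := by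
          rw [← hL, map_sub, hL, hL, hsm, h1]
        have h3 := (hn (h - X • cc)).trans hF.hX
        rw [h2] at h3
        have h4 := (Complex.abs_re_le_norm (ev h t - X * t)).trans h3
        rwa [Complex.sub_re, Complex.re_ofReal_mul] at h4
      have v1 := hval 1 (by simp) (by simp)
      have v2 := hval (-1) (by simp) (by norm_num)
      rw [Complex.one_re, mul_one, abs_le] at v1
      rw [Complex.neg_re, Complex.one_re, abs_le] at v2
      have hXX : 15 * X ^ 2 ≤ X / 10 := by
        norm_num at hX2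
        nlinarith
      obtain ⟨z₂, hz₂, hz₂n⟩ : ∃ z : ℂ, ‖z‖ = 1 ∧ z ^ P.n = -1 := by
        refine ⟨Complex.exp ((Real.pi / P.n : ℝ) * Complex.I), Complex.norm_exp_ofReal_mul_I _, ?_⟩
        rw [← Complex.exp_nat_mul]
        have : (P.n : ℂ) * (((Real.pi / P.n : ℝ) : ℂ) * Complex.I) = Real.pi * Complex.I := by
          push_cast
          field_simp
        rw [this, Complex.exp_pi_mul_I]
      refine ⟨1, z₂, by simp, hz₂, ?_⟩
      rw [hnorm 1 (by simp), hnorm z₂ hz₂, hz₂n, one_pow]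
      intro heq
      have h5 := Real.exp_injective (mul_left_cancel₀ hρ0.ne' heq)
      have hnu : P.nu ≠ 0 := by
        have := hG.nu1
        intro h0
        rw [h0] at this
        norm_num at this
      have h6 : (ev h 1).re = (ev h (-1)).re := by
        have := (div_left_inj' hnR).1 h5
        exact mul_left_cancel₀ hnu this
      linarith [v1.1, v2.2]

end Pool.Agent.U924.SC
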