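import Pool.Agent.N229.SC.Stm

/-!
Project SC (Schiffer), part DIV: the integral of a derivative of a function vanishing on the
boundary of the disc.
-/

set_option autoImplicit false

open Set Filter Topology MeasureTheory

namespace Pool.Agent.U924.SC

open Pool.Agent.N229.SC

/-- A continuous function vanishing off the unit disc, with bounded derivative inside, is
Lipschitz. -/
theorem lip_of {F : ℂ → ℝ} {B : ℝ} (hB : 0 ≤ B) (hc : Continuous F)
    (h0 : ∀ z : ℂ, 1 ≤ ‖z‖ → F z = 0)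
    (hd : ContDiffOn ℝ 1 F (Metric.ball 0 1))
    (hb : ∀ z ∈ Metric.ball (0 : ℂ) 1, ‖fderiv ℝ F z‖ ≤ B) :
    LipschitzWith ⟨B, hB⟩ F := by
  have h1 : ∀ x ∈ Metric.ball (0 : ℂ) 1, ∀ y ∈ Metric.ball (0 : ℂ) 1,
      ‖F y - F x‖ ≤ B * ‖y - x‖ := by
    intro x hx y hy
    exact Convex.norm_image_sub_le_of_norm_fderiv_le (𝕜 := ℝ)
      (fun z hz => (hd.differentiableOn (by norm_num)).differentiableAt
        (Metric.isOpen_ball.mem_nhds hz)) hb (convex_ball (0 : ℂ) 1) hx hy
  -- closed ball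
  have h2 : ∀ x ∈ Metric.ball (0 : ℂ) 1, ∀ y : ℂ, ‖y‖ ≤ 1 → ‖F y - F x‖ ≤ B * ‖y - x‖ := by
    intro x hx y hy
    have ht : Tendsto (fun t : ℝ => ‖F (t • y) - F x‖) (𝓝[<] 1) (𝓝 ‖F ((1 : ℝ) • y) - F x‖) := by
      have : Continuous fun t : ℝ => ‖F (t • y) - F x‖ := by fun_prop
      exact (this.tendsto 1).mono_left nhdsWithin_le_nhds
    have ht' : Tendsto (fun t : ℝ => B * ‖t • y - x‖) (𝓝[<] 1) (𝓝 (B * ‖(1 : ℝ) • y - x‖)) := by
      have : Continuous fun t : ℝ => B * ‖t • y - x‖ := by fun_prop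
      exact (this.tendsto 1).mono_left nhdsWithin_le_nhds
    rw [one_smul] at ht ht'
    refine le_of_tendsto_of_tendsto ht ht' ?_
    have hev : ∀ᶠ t : ℝ in 𝓝[<] 1, t ∈ Ioo (0 : ℝ) 1 := Ioo_mem_nhdsLT (by norm_num)
    filter_upwards [hev] with t ht
    refine h1 x hx _ ?_
    rw [mem_ball_zero_iff, norm_smul, Real.norm_of_nonneg ht.1.le]
    have := norm_nonneg y
    nlinarith [ht.1, ht.2]
  -- arbitrary second point
  have h3 : ∀ x ∈ Metric.ball (0 : ℂ) 1, ∀ y : ℂ, ‖F y - F x‖ ≤ B * ‖y - x‖ := by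
    intro x hx y
    rcases le_or_gt ‖y‖ 1 with hy | hy
    · exact h2 x hx y hy
    · obtain ⟨u, hu, hxu⟩ : ∃ u : ℂ, ‖u‖ = 1 ∧ x = ‖x‖ • u := by
        rcases eq_or_ne x 0 with rfl | hx0
        · exact ⟨1, by simp, by simp⟩
        · refine ⟨‖x‖⁻¹ • x, ?_, ?_⟩
          · rw [norm_smul, norm_inv, norm_norm, inv_mul_cancel₀ (norm_ne_zero_iff.2 hx0)]
          · rw [smul_smul, mul_inv_cancel₀ (norm_ne_zero_iff.2 hx0), one_smul]
      have h4 := h2 x hx u hu.le
      rw [h0 u hu.ge] at h4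
      rw [h0 y hy.le]
      have h5 : ‖u - x‖ = 1 - ‖x‖ := by
        have hx1 : ‖x‖ < 1 := mem_ball_zero_iff.1 hx
        have : u - x = (1 - ‖x‖) • u := by
          conv_lhs => rw [hxu]
          rw [sub_smul, one_smul]
        rw [this, norm_smul, hu, mul_one, Real.norm_of_nonneg (by linarith)]
      have h6 : 1 - ‖x‖ ≤ ‖y - x‖ := by
        have := norm_sub_norm_le y x
        linarith
      rw [h5] at h4
      exact h4.trans (mul_le_mul_of_nonneg_left h6 hB)
  refine LipschitzWith.of_dist_le_mul fun x y => ?_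
  rw [dist_eq_norm, dist_eq_norm]
  show ‖F x - F y‖ ≤ B * ‖x - y‖
  rcases lt_or_ge ‖y‖ 1 with hy | hy
  · exact h3 y (mem_ball_zero_iff.2 hy) x
  · rcases lt_or_ge ‖x‖ 1 with hx | hx
    · have := h3 x (mem_ball_zero_iff.2 hx) y
      rwa [norm_sub_rev, norm_sub_rev y x] at this
    · rw [h0 x hx, h0 y hy, sub_zero, norm_zero]
      positivity

/-- SC-DIV. -/
theorem proof_DIV : S_DIV := by
  intro F B hc h0 hd hb v
  have hB : 0 ≤ B := (norm_nonneg _).trans (hb 0 (by simp))
  have hL := lip_of hB hc h0 hd hb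
  have hcs : HasCompactSupport F := by
    refine HasCompactSupport.intro (isCompact_closedBall (0 : ℂ) 1) fun x hx => h0 x ?_
    rw [mem_closedBall_zero_iff, not_le] at hx
    exact hx.le
  have h1 := LipschitzWith.integral_lineDeriv_mul_eq (μ := (volume : Measure ℂ))
    (LipschitzWith.const (1 : ℝ)) hL hcs (-v)
  have h2 : ∀ x : ℂ, lineDeriv ℝ (fun _ : ℂ => (1 : ℝ)) x (-v) = 0 := by
    intro x
    simp [lineDeriv]
  simp only [h2, zero_mul, integral_zero, neg_neg, mul_one] at h1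
  have h3 : ∫ x, lineDeriv ℝ F x v = ∫ x in Metric.ball (0 : ℂ) 1, lineDeriv ℝ F x v := by
    symm
    apply setIntegral_eq_integral_of_ae_compl_eq_zero
    have hs : (volume : Measure ℂ) (Metric.sphere 0 1) = 0 := Measure.addHaar_sphere _ _ _
    have hs' : ∀ᵐ x : ℂ, x ∉ Metric.sphere (0 : ℂ) 1 := measure_eq_zero_iff_ae_notMem.1 hs
    filter_upwards [hs'] with x hx hxb
    have hx1 : 1 < ‖x‖ := by
      rw [mem_sphere_zero_iff_norm] at hx
      rw [mem_ball_zero_iff, not_lt] at hxb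
      exact lt_of_le_of_ne hxb (Ne.symm hx)
    have hev : F =ᶠ[𝓝 x] fun _ => (0 : ℝ) := by
      have : {z : ℂ | 1 < ‖z‖} ∈ 𝓝 x :=
        (isOpen_lt continuous_const continuous_norm).mem_nhds hx1
      filter_upwards [this] with z hz
      exact h0 z (le_of_lt hz)
    rw [hev.lineDeriv_eq]
    simp [lineDeriv]
  have h4 : ∫ x in Metric.ball (0 : ℂ) 1, fderiv ℝ F x v
      = ∫ x in Metric.ball (0 : ℂ) 1, lineDeriv ℝ F x v := by
    refine setIntegral_congr_fun measurableSet_ball fun x hx => ?_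
    exact ((hd.differentiableOn (by norm_num)).differentiableAt
      (Metric.isOpen_ball.mem_nhds hx)).lineDeriv_eq_fderiv.symm
  rw [h4, ← h3, ← h1]

/-- The divergence theorem on the unit disc for a vector field which is `C ^ 1` beyond the unit
circle and vanishes on it. -/
theorem gauss {r : ℝ} (hr : 1 < r) {G : ℂ → ℂ} (hG : ContDiffOn ℝ 1 G (Metric.ball 0 r))
    (h0 : ∀ z : ℂ, ‖z‖ = 1 → G z = 0) :
    ∫ z in Metric.ball (0 : ℂ) 1, ((fderiv ℝ G z 1).re + (fderiv ℝ G z Complex.I).im) = 0 := by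
  have hsub : Metric.ball (0 : ℂ) 1 ⊆ Metric.ball 0 r := Metric.ball_subset_ball hr.le
  have hcsub : Metric.closedBall (0 : ℂ) 1 ⊆ Metric.ball 0 r := Metric.closedBall_subset_ball hr
  have hdc : ContinuousOn (fderiv ℝ G) (Metric.ball 0 r) :=
    hG.continuousOn_fderiv_of_isOpen Metric.isOpen_ball (by norm_num)
  obtain ⟨B, hB⟩ := (isCompact_closedBall (0 : ℂ) 1).exists_bound_of_continuousOn
    (hdc.mono hcsub)
  -- one component
  have key : ∀ (L : ℂ →L[ℝ] ℝ) (v : ℂ),
      ∫ z in Metric.ball (0 : ℂ) 1, L (fderiv ℝ G z v) = 0 := by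
    intro L v
    have hF1 : ∀ z ∈ Metric.ball (0 : ℂ) 1,
        HasFDerivAt (fun z : ℂ => if ‖z‖ ≤ 1 then L (G z) else 0)
          (L.comp (fderiv ℝ G z)) z := by
      intro z hz
      have h1 : HasFDerivAt (fun z => L (G z)) (L.comp (fderiv ℝ G z)) z :=
        L.hasFDerivAt.comp z (((hG.differentiableOn (by norm_num)).differentiableAt
          (Metric.isOpen_ball.mem_nhds (hsub hz))).hasFDerivAt)
      refine h1.congr_of_eventuallyEq ?_
      filter_upwards [Metric.isOpen_ball.mem_nhds hz] with w hw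
      rw [if_pos (mem_ball_zero_iff.1 hw).le]
    have h2 := proof_DIV (fun z : ℂ => if ‖z‖ ≤ 1 then L (G z) else 0) (‖L‖ * B)
      ?_ ?_ ?_ ?_ v
    · rw [← h2]
      refine setIntegral_congr_fun measurableSet_ball fun z hz => ?_
      simp only [(hF1 z hz).fderiv]
      rfl
    · refine continuous_if_le continuous_norm continuous_const ?_ continuousOn_const ?_
      · refine L.continuous.comp_continuousOn (hG.continuousOn.mono fun z hz => hcsub ?_)
        exact mem_closedBall_zero_iff.2 hz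
      · intro z hz
        rw [h0 z hz, map_zero]
    · intro z hz
      show (if ‖z‖ ≤ 1 then L (G z) else 0) = 0
      rcases eq_or_lt_of_le hz with h | h
      · rw [if_pos h.symm.le, h0 z h.symm, map_zero]
      · rw [if_neg (not_le.2 h)]
    · refine ContDiffOn.congr (f := fun z => L (G z)) ?_ fun z hz => by
        show (if ‖z‖ ≤ 1 then L (G z) else 0) = L (G z)
        rw [if_pos (mem_ball_zero_iff.1 hz).le]
      exact L.contDiff.comp_contDiffOn (hG.mono hsub)
    · intro z hz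
      rw [(hF1 z hz).fderiv]
      refine (L.opNorm_comp_le _).trans ?_
      exact mul_le_mul_of_nonneg_left (hB z (Metric.ball_subset_closedBall hz)) (norm_nonneg _)
  have h1 := key Complex.reCLM 1
  have h2 := key Complex.imCLM Complex.I
  have hint : ∀ (L : ℂ →L[ℝ] ℝ) (v : ℂ),
      IntegrableOn (fun z => L (fderiv ℝ G z v)) (Metric.ball (0 : ℂ) 1) := by
    intro L v
    have : ContinuousOn (fun z => L (fderiv ℝ G z v)) (Metric.closedBall (0 : ℂ) 1) :=
      L.continuous.comp_continuousOn ((hdc.mono hcsub).clm_apply continuousOn_const)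
    exact (this.integrableOn_compact (isCompact_closedBall _ _)).mono_set
      Metric.ball_subset_closedBall
  have h3 := integral_add (hint Complex.reCLM 1) (hint Complex.imCLM Complex.I)
  rw [h1, h2, add_zero] at h3
  exact h3

end Pool.Agent.U924.SC
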