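import Pool.Agent.U924.SC.CV
import Pool.Agent.U924.SC.DIV

/-!
Project SC (Schiffer), parts WK2, WK3: the two weak identities.
-/

set_option autoImplicit false

open Set Filter Topology MeasureTheory

namespace Pool.Agent.U924.SC

open Pool.Agent.N229.SC

theorem clm_eq (L : ℂ →L[ℝ] ℝ) (x : ℂ) : L x = x.re * L 1 + x.im * L Complex.I := by
  conv_lhs => rw [← Complex.re_add_im x]
  have h1 : ((x.re : ℂ) + (x.im : ℂ) * Complex.I) = x.re • (1 : ℂ) + x.im • Complex.I := by
    simp [Complex.real_smul]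
  rw [h1, map_add, map_smul, map_smul, smul_eq_mul, smul_eq_mul]

theorem inv_f {ρ r : ℝ} {f : ℂ → ℂ} (h : Conf ρ r f) {z : ℂ} (hz : z ∈ Metric.ball (0 : ℂ) 1) :
    Function.invFunOn f (Metric.ball 0 1) (f z) = z :=
  ((proof_INJ ρ r f h).2.mono (ball_sub h)).leftInvOn_invFunOn hz

theorem uF_f {ρ r : ℝ} {f : ℂ → ℂ} (h : Conf ρ r f) (U : ℂ → ℝ) {z : ℂ}
    (hz : z ∈ Metric.ball (0 : ℂ) 1) : uF f U (f z) = U z := by
  rw [uF, inv_f h hz]

theorem GF_f {ρ r : ℝ} {f : ℂ → ℂ} (h : Conf ρ r f) (S : ℂ → ℂ) {z : ℂ}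
    (hz : z ∈ Metric.ball (0 : ℂ) 1) :
    GF f S (f z) = starRingEnd ℂ (S z / deriv f z) := by
  rw [GF, inv_f h hz]

theorem der_ne {ρ r : ℝ} {f : ℂ → ℂ} (h : Conf ρ r f) {z : ℂ}
    (hz : z ∈ Metric.ball (0 : ℂ) r) : deriv f z ≠ 0 := by
  intro h0
  have h1 := h.f_der z hz
  rw [h0, zero_sub, norm_neg, Complex.norm_real, Real.norm_of_nonneg h.rho_pos.le] at h1
  have := h.rho_pos
  linarith

theorem U_cd {r c : ℝ} {f : ℂ → ℂ} {U : ℂ → ℝ} {S : ℂ → ℂ} (hcl : Cl r c f U S) :
    ContDiffOn ℝ 1 U (Metric.ball 0 r) := by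
  have h01 : (1 : WithTop ℕ∞) = 0 + 1 := by norm_num
  rw [h01, contDiffOn_succ_iff_fderiv_of_isOpen Metric.isOpen_ball]
  refine ⟨fun z hz => (hcl.U_der z hz).differentiableAt.differentiableWithinAt,
    fun h => absurd h (by simp), ?_⟩
  rw [contDiffOn_zero]
  have : ContinuousOn (fun z => Complex.reCLM.comp (ContinuousLinearMap.mul ℝ ℂ (S z)))
      (Metric.ball 0 r) := by
    refine ContinuousOn.clm_comp continuousOn_const ?_
    exact (ContinuousLinearMap.mul ℝ ℂ).continuous.comp_continuousOn hcl.S_smooth.continuousOn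
  exact this.congr fun z hz => (hcl.U_der z hz).fderiv

theorem f_cd {ρ r : ℝ} {f : ℂ → ℂ} (h : Conf ρ r f) : ContDiffOn ℝ 1 f (Metric.ball 0 r) :=
  ((h.f_diff.contDiffOn Metric.isOpen_ball).restrict_scalars ℝ)

theorem df_cd {ρ r : ℝ} {f : ℂ → ℂ} (h : Conf ρ r f) :
    ContDiffOn ℝ 1 (deriv f) (Metric.ball 0 r) :=
  (((h.f_diff.deriv Metric.isOpen_ball).contDiffOn Metric.isOpen_ball).restrict_scalars ℝ)

/-- SC-WK3. -/
theorem proof_WK3 : S_WK3 := by
  intro ρ r r' c f U S h hr' hr hcl φ hφ _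
  have hsub : Metric.ball (0 : ℂ) 1 ⊆ Metric.ball 0 r' := Metric.ball_subset_ball hr'.le
  have hsub' : Metric.ball (0 : ℂ) r' ⊆ Metric.ball 0 r := Metric.ball_subset_ball hr
  have e1 := proof_CV ρ r f h (fun x => fderiv ℝ φ x (GF f S x))
  have e2 := proof_CV ρ r f h (fun x => uF f U x * φ x)
  rw [one_mul]
  rw [e1, e2, ← sub_eq_zero]
  set G : ℂ → ℂ := fun z => φ (f z) • starRingEnd ℂ (S z) with hGdef
  have hG : ContDiffOn ℝ 1 G (Metric.ball 0 r') := by
    refine ContDiffOn.smul (hφ.comp_contDiffOn ((f_cd h).mono hsub')) ?_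
    exact Complex.conjCLE.contDiff.comp_contDiffOn hcl.S_smooth
  have hG0 : ∀ z : ℂ, ‖z‖ = 1 → G z = 0 := by
    intro z hz
    simp only [hGdef, hcl.S_bd z hz, map_zero, smul_zero]
  have hgauss := gauss hr' hG hG0
  have hcont : ∀ g : ℂ → ℝ, ContinuousOn g (Metric.ball 0 r') →
      IntegrableOn g (Metric.ball (0 : ℂ) 1) := by
    intro g hg
    exact ((hg.mono (Metric.closedBall_subset_ball hr')).integrableOn_compact
      (isCompact_closedBall _ _)).mono_set Metric.ball_subset_closedBall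
  have hpt : ∀ z ∈ Metric.ball (0 : ℂ) 1, (fderiv ℝ G z 1).re + (fderiv ℝ G z Complex.I).im
      = fderiv ℝ φ (f z) (deriv f z * starRingEnd ℂ (S z)) - ‖deriv f z‖ ^ 2 * (U z * φ (f z)) := by
    intro z hz
    have hzr' := hsub hz
    have hzr := hsub' hzr'
    have d1 : HasFDerivAt f (ContinuousLinearMap.mul ℝ ℂ (deriv f z)) z :=
      hasFDerivAt_mul (conf_hasDerivAt h hzr)
    have d2 : HasFDerivAt φ (fderiv ℝ φ (f z)) (f z) :=
      (hφ.differentiable (by norm_num) _).hasFDerivAt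
    have d3 : HasFDerivAt S (fderiv ℝ S z) z :=
      ((hcl.S_smooth.differentiableOn (by norm_num)).differentiableAt
        (Metric.isOpen_ball.mem_nhds hzr')).hasFDerivAt
    have d4 : HasFDerivAt (fun z => starRingEnd ℂ (S z))
        ((Complex.conjCLE : ℂ →L[ℝ] ℂ).comp (fderiv ℝ S z)) z :=
      (Complex.conjCLE : ℂ →L[ℝ] ℂ).hasFDerivAt.comp z d3
    have d5 := (d2.comp z d1).smul d4
    have d6 : fderiv ℝ G z = _ := d5.fderiv
    have hl := hcl.lap z hzr'
    rw [d6]
    have q1 := clm_eq (fderiv ℝ φ (f z)) (deriv f z * starRingEnd ℂ (S z))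
    have q2 := clm_eq (fderiv ℝ φ (f z)) (deriv f z)
    have q3 := clm_eq (fderiv ℝ φ (f z)) (deriv f z * Complex.I)
    simp only [ContinuousLinearMap.add_apply, ContinuousLinearMap.smul_apply,
      ContinuousLinearMap.smulRight_apply, ContinuousLinearMap.comp_apply,
      ContinuousLinearMap.mul_apply', Function.comp_apply, mul_one, Complex.add_re,
      Complex.add_im, Complex.real_smul, Complex.mul_re, Complex.mul_im, Complex.ofReal_re,
      Complex.ofReal_im, Complex.conj_re, Complex.conj_im, Complex.I_re, Complex.I_im,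
      ContinuousLinearEquiv.coe_coe, Complex.conjCLE_apply, zero_mul, sub_zero, add_zero,
      mul_zero, zero_sub, zero_add] at q1 q2 q3 ⊢
    rw [q1, q2, q3]
    linear_combination (φ (f z)) * hl
  have hi1 : IntegrableOn (fun z => fderiv ℝ φ (f z) (deriv f z * starRingEnd ℂ (S z)))
      (Metric.ball (0 : ℂ) 1) := by
    apply hcont
    have c1 : ContinuousOn (fun z => fderiv ℝ φ (f z)) (Metric.ball 0 r') :=
      (hφ.continuous_fderiv (by norm_num)).comp_continuousOn ((f_cd h).mono hsub').continuousOn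
    refine c1.clm_apply (((df_cd h).mono hsub').continuousOn.mul ?_)
    exact Complex.continuous_conj.comp_continuousOn hcl.S_smooth.continuousOn
  have hi2 : IntegrableOn (fun z => ‖deriv f z‖ ^ 2 * (U z * φ (f z)))
      (Metric.ball (0 : ℂ) 1) := by
    apply hcont
    refine ((((df_cd h).mono hsub').continuousOn.norm).pow 2).mul
      ((U_cd hcl).continuousOn.mul ?_)
    exact hφ.continuous.comp_continuousOn ((f_cd h).mono hsub').continuousOn
  have h3 : ∫ z in Metric.ball (0 : ℂ) 1, (fderiv ℝ φ (f z) (deriv f z * starRingEnd ℂ (S z)) -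
      ‖deriv f z‖ ^ 2 * (U z * φ (f z))) = 0 := by
    rw [← hgauss]
    exact setIntegral_congr_fun measurableSet_ball fun z hz => (hpt z hz).symm
  rw [integral_sub hi1 hi2] at h3
  rw [← h3]
  congr 1
  · refine setIntegral_congr_fun measurableSet_ball fun z hz => ?_
    have hne := der_ne h (ball_sub h hz)
    show ‖deriv f z‖ ^ 2 * fderiv ℝ φ (f z) (GF f S (f z)) = _
    rw [GF_f h S hz, ← smul_eq_mul, ← map_smul]
    congr 1
    rw [Complex.real_smul, map_div₀, Complex.ofReal_pow, ← Complex.mul_conj']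
    have hne' : starRingEnd ℂ (deriv f z) ≠ 0 := (map_ne_zero _).2 hne
    field_simp
  · refine setIntegral_congr_fun measurableSet_ball fun z hz => ?_
    show ‖deriv f z‖ ^ 2 * (uF f U (f z) * φ (f z)) = _
    rw [uF_f h U hz]

/-- SC-WK2. -/
theorem proof_WK2 : S_WK2 := by
  intro ρ r r' c f U S h hr' hr hcl φ hφ _ v
  have hsub : Metric.ball (0 : ℂ) 1 ⊆ Metric.ball 0 r' := Metric.ball_subset_ball hr'.le
  have hsub' : Metric.ball (0 : ℂ) r' ⊆ Metric.ball 0 r := Metric.ball_subset_ball hr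
  have e1 := proof_CV ρ r f h (fun x => (uF f U x - c) * (fderiv ℝ φ x v))
  have e2 := proof_CV ρ r f h (fun x => @inner ℝ ℂ _ (GF f S x) v * φ x)
  rw [e1, e2, eq_neg_iff_add_eq_zero]
  set G : ℂ → ℂ := fun z => ((U z - c) * φ (f z)) • (starRingEnd ℂ (deriv f z) * v) with hGdef
  have hfc : ContDiffOn ℝ 1 (fun z => φ (f z)) (Metric.ball 0 r') :=
    hφ.comp_contDiffOn ((f_cd h).mono hsub')
  have hcc : ContDiffOn ℝ 1 (fun z => starRingEnd ℂ (deriv f z)) (Metric.ball 0 r') :=
    Complex.conjCLE.contDiff.comp_contDiffOn ((df_cd h).mono hsub')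
  have hG : ContDiffOn ℝ 1 G (Metric.ball 0 r') := by
    have k1 : ContDiffOn ℝ 1 (fun z => (U z - c) * φ (f z)) (Metric.ball 0 r') :=
      ((U_cd hcl).sub contDiffOn_const).mul hfc
    have k2 : ContDiffOn ℝ 1 (fun z => starRingEnd ℂ (deriv f z) * v) (Metric.ball 0 r') :=
      hcc.mul contDiffOn_const
    exact k1.smul k2
  have hG0 : ∀ z : ℂ, ‖z‖ = 1 → G z = 0 := by
    intro z hz
    simp only [hGdef, hcl.U_bd z hz, sub_self, zero_mul, zero_smul]
  have hgauss := gauss hr' hG hG0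
  have hcont : ∀ g : ℂ → ℝ, ContinuousOn g (Metric.ball 0 r') →
      IntegrableOn g (Metric.ball (0 : ℂ) 1) := by
    intro g hg
    exact ((hg.mono (Metric.closedBall_subset_ball hr')).integrableOn_compact
      (isCompact_closedBall _ _)).mono_set Metric.ball_subset_closedBall
  have hpt : ∀ z ∈ Metric.ball (0 : ℂ) 1, (fderiv ℝ G z 1).re + (fderiv ℝ G z Complex.I).im
      = ‖deriv f z‖ ^ 2 * ((U z - c) * fderiv ℝ φ (f z) v) +
        (S z * (starRingEnd ℂ (deriv f z) * v)).re * φ (f z) := by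
    intro z hz
    have hzr' := hsub hz
    have hzr := hsub' hzr'
    have d1 : HasFDerivAt f (ContinuousLinearMap.mul ℝ ℂ (deriv f z)) z :=
      hasFDerivAt_mul (conf_hasDerivAt h hzr)
    have d2 : HasFDerivAt φ (fderiv ℝ φ (f z)) (f z) :=
      (hφ.differentiable (by norm_num) _).hasFDerivAt
    have d3 : HasFDerivAt (deriv f) (ContinuousLinearMap.mul ℝ ℂ (deriv (deriv f) z)) z :=
      hasFDerivAt_mul (((h.f_diff.deriv Metric.isOpen_ball).differentiableAt
        (Metric.isOpen_ball.mem_nhds hzr)).hasDerivAt)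
    have d4 : HasFDerivAt (fun z => starRingEnd ℂ (deriv f z))
        ((Complex.conjCLE : ℂ →L[ℝ] ℂ).comp
          (ContinuousLinearMap.mul ℝ ℂ (deriv (deriv f) z))) z :=
      (Complex.conjCLE : ℂ →L[ℝ] ℂ).hasFDerivAt.comp z d3
    have d5 := (((hcl.U_der z hzr').sub_const c).mul (d2.comp z d1)).smul (d4.mul_const v)
    have d6 : fderiv ℝ G z = _ := d5.fderiv
    rw [d6]
    have q1 := clm_eq (fderiv ℝ φ (f z)) v
    have q2 := clm_eq (fderiv ℝ φ (f z)) (deriv f z)
    have q3 := clm_eq (fderiv ℝ φ (f z)) (deriv f z * Complex.I)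
    have q4 : ‖deriv f z‖ ^ 2 = (deriv f z).re ^ 2 + (deriv f z).im ^ 2 := by
      rw [Complex.sq_norm, Complex.normSq_apply]; ring
    simp only [ContinuousLinearMap.add_apply, ContinuousLinearMap.smul_apply,
      ContinuousLinearMap.smulRight_apply, ContinuousLinearMap.comp_apply,
      ContinuousLinearMap.mul_apply', Function.comp_apply, mul_one, Complex.add_re,
      Complex.add_im, Complex.real_smul, Complex.mul_re, Complex.mul_im, Complex.ofReal_re,
      Complex.ofReal_im, Complex.conj_re, Complex.conj_im, Complex.I_re, Complex.I_im,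
      ContinuousLinearEquiv.coe_coe, Complex.conjCLE_apply, zero_mul, sub_zero, add_zero,
      mul_zero, zero_sub, zero_add, smul_eq_mul, Complex.reCLM_apply] at q1 q2 q3 ⊢
    rw [q1, q2, q3, q4]
    ring
  have hi1 : IntegrableOn (fun z => ‖deriv f z‖ ^ 2 * ((U z - c) * fderiv ℝ φ (f z) v))
      (Metric.ball (0 : ℂ) 1) := by
    apply hcont
    have c1 : ContinuousOn (fun z => fderiv ℝ φ (f z)) (Metric.ball 0 r') :=
      (hφ.continuous_fderiv (by norm_num)).comp_continuousOn ((f_cd h).mono hsub').continuousOn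
    exact ((((df_cd h).mono hsub').continuousOn.norm).pow 2).mul
      (((U_cd hcl).continuousOn.sub continuousOn_const).mul (c1.clm_apply continuousOn_const))
  have hi2 : IntegrableOn (fun z => (S z * (starRingEnd ℂ (deriv f z) * v)).re * φ (f z))
      (Metric.ball (0 : ℂ) 1) := by
    apply hcont
    refine ContinuousOn.mul ?_ hfc.continuousOn
    exact Complex.continuous_re.comp_continuousOn
      (hcl.S_smooth.continuousOn.mul (hcc.continuousOn.mul continuousOn_const))
  have h3 : ∫ z in Metric.ball (0 : ℂ) 1, (‖deriv f z‖ ^ 2 * ((U z - c) * fderiv ℝ φ (f z) v) +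
        (S z * (starRingEnd ℂ (deriv f z) * v)).re * φ (f z)) = 0 := by
    rw [← hgauss]
    exact setIntegral_congr_fun measurableSet_ball fun z hz => (hpt z hz).symm
  rw [integral_add hi1 hi2] at h3
  rw [← h3]
  congr 1
  · refine setIntegral_congr_fun measurableSet_ball fun z hz => ?_
    show ‖deriv f z‖ ^ 2 * ((uF f U (f z) - c) * fderiv ℝ φ (f z) v) = _
    rw [uF_f h U hz]
  · refine setIntegral_congr_fun measurableSet_ball fun z hz => ?_
    have hne := der_ne h (ball_sub h hz)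
    show ‖deriv f z‖ ^ 2 * (@inner ℝ ℂ _ (GF f S (f z)) v * φ (f z)) = _
    rw [GF_f h S hz, ← mul_assoc]
    congr 1
    rw [Complex.inner, Complex.conj_conj, ← Complex.re_ofReal_mul]
    congr 1
    rw [Complex.ofReal_pow, ← Complex.mul_conj']
    field_simp

end Pool.Agent.U924.SC
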