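import Pool.Agent.U924.SC.WK

/-!
Project SC (Schiffer), part WK1: integrability of the weak solution.
-/

set_option autoImplicit false

open Set Filter Topology MeasureTheory

namespace Pool.Agent.U924.SC

open Pool.Agent.N229.SC

theorem inv_cont {ρ r : ℝ} {f : ℂ → ℂ} (h : Conf ρ r f) :
    ContinuousOn (Function.invFunOn f (Metric.ball 0 1)) (Om f) := by
  have hρ := h.rho_pos
  have hL : LipschitzOnWith (Real.toNNReal (10 / (9 * ρ)))
      (Function.invFunOn f (Metric.ball 0 1)) (Om f) := by
    refine LipschitzOnWith.of_dist_le_mul ?_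
    rintro x ⟨z, hz, rfl⟩ y ⟨w, hw, rfl⟩
    rw [inv_f h hz, inv_f h hw, dist_eq_norm, dist_eq_norm, Real.coe_toNNReal _ (by positivity)]
    have h1 := (proof_INJ ρ r f h).1 z (ball_sub h hz) w (ball_sub h hw)
    have h2 : ρ * ‖z - w‖ ≤ ‖f z - f w‖ + ρ / 10 * ‖z - w‖ := by
      calc ρ * ‖z - w‖ = ‖(ρ : ℂ) * (z - w)‖ := by
            rw [norm_mul, Complex.norm_real, Real.norm_of_nonneg hρ.le]
        _ = ‖(f z - f w) - (f z - f w - ρ * (z - w))‖ := by congr 1; ring
        _ ≤ ‖f z - f w‖ + ‖f z - f w - ρ * (z - w)‖ := norm_sub_le _ _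
        _ ≤ _ := by linarith
    rw [div_mul_eq_mul_div, le_div_iff₀ (by positivity)]
    linarith
  exact hL.continuousOn

theorem inv_mem {ρ r : ℝ} {f : ℂ → ℂ} (h : Conf ρ r f) :
    MapsTo (Function.invFunOn f (Metric.ball 0 1)) (Om f) (Metric.ball 0 1) := by
  rintro x ⟨z, hz, rfl⟩
  rw [inv_f h hz]
  exact hz

/-- SC-WK1. -/
theorem proof_WK1 : S_WK1 := by
  intro ρ r r' c f U S h hr' hr hcl
  have hsub : Metric.ball (0 : ℂ) 1 ⊆ Metric.ball 0 r' := Metric.ball_subset_ball hr'.le
  have hcsub : Metric.closedBall (0 : ℂ) 1 ⊆ Metric.ball 0 r' := Metric.closedBall_subset_ball hr'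
  have hsub' : Metric.ball (0 : ℂ) r' ⊆ Metric.ball 0 r := Metric.ball_subset_ball hr
  have hmeas : MeasurableSet (Om f) := by
    refine measurableSet_ball.image_of_continuousOn_injOn ?_
      ((proof_INJ ρ r f h).2.mono (ball_sub h))
    exact h.f_diff.continuousOn.mono (ball_sub h)
  have hfin : volume (Om f) ≠ ⊤ := by
    have h1 : IsCompact (f '' Metric.closedBall (0 : ℂ) 1) :=
      (isCompact_closedBall (0 : ℂ) 1).image_of_continuousOn
        (h.f_diff.continuousOn.mono (hcsub.trans hsub'))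
    exact ((measure_mono (image_mono Metric.ball_subset_closedBall)).trans_lt
      h1.measure_lt_top).ne
  haveI : IsFiniteMeasure (volume.restrict (Om f)) := ⟨by
    rw [Measure.restrict_apply_univ]; exact hfin.lt_top⟩
  have hUc : ContinuousOn U (Metric.ball 0 r') := (U_cd hcl).continuousOn
  refine ⟨?_, ?_, ?_⟩
  · obtain ⟨C, hC⟩ := (isCompact_closedBall (0 : ℂ) 1).exists_bound_of_continuousOn
      (hUc.mono hcsub)
    refine MemLp.of_bound (ContinuousOn.aestronglyMeasurable ?_ hmeas) C ?_
    · exact hUc.comp (inv_cont h) fun x hx => hsub (inv_mem h hx)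
    · refine (ae_restrict_iff' hmeas).2 (Eventually.of_forall fun x hx => ?_)
      exact hC _ (Metric.ball_subset_closedBall (inv_mem h hx))
  · have hg : ContinuousOn (fun z => starRingEnd ℂ (S z / deriv f z)) (Metric.ball 0 r') := by
      refine Complex.continuous_conj.comp_continuousOn ?_
      refine hcl.S_smooth.continuousOn.div ((df_cd h).continuousOn.mono hsub') ?_
      exact fun z hz => der_ne h (hsub' hz)
    obtain ⟨C, hC⟩ := (isCompact_closedBall (0 : ℂ) 1).exists_bound_of_continuousOn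
      (hg.mono hcsub)
    refine MemLp.of_bound (ContinuousOn.aestronglyMeasurable ?_ hmeas) C ?_
    · exact hg.comp (inv_cont h) fun x hx => hsub (inv_mem h hx)
    · refine (ae_restrict_iff' hmeas).2 (Eventually.of_forall fun x hx => ?_)
      exact hC _ (Metric.ball_subset_closedBall (inv_mem h hx))
  · intro h0
    -- the open set where `U ≠ 0`
    set T : Set ℂ := Metric.ball 0 1 ∩ U ⁻¹' {0}ᶜ with hT
    have hTo : IsOpen T :=
      (hUc.mono hsub).isOpen_inter_preimage Metric.isOpen_ball isOpen_compl_singleton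
    have hTne : T.Nonempty := by
      have h1 : (1 : ℂ) ∈ Metric.ball (0 : ℂ) r' := by simpa using hr'
      have h2 : ContinuousAt U 1 := hUc.continuousAt (Metric.isOpen_ball.mem_nhds h1)
      have h3 : ∀ᶠ z in 𝓝 (1 : ℂ), U z ≠ 0 := by
        refine h2.eventually_ne ?_
        rw [hcl.U_bd 1 (by simp)]
        exact hcl.c_ne
      have h4 : (1 : ℂ) ∈ closure (Metric.ball (0 : ℂ) 1) := by
        rw [closure_ball _ one_ne_zero]
        simp
      obtain ⟨z, hz1, hz2⟩ := mem_closure_iff_nhds.1 h4 _ h3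
      exact ⟨z, hz2, hz1⟩
    have hfo : IsOpen (f '' T) := by
      rw [isOpen_iff_mem_nhds]
      rintro _ ⟨z, hz, rfl⟩
      have hzr := ball_sub h hz.1
      have h1 : HasStrictDerivAt f (deriv f z) z :=
        (h.f_diff.analyticAt (Metric.isOpen_ball.mem_nhds hzr)).hasStrictDerivAt
      rw [← h1.map_nhds_eq (der_ne h hzr)]
      exact image_mem_map (hTo.mem_nhds hz)
    have hpos : 0 < volume (f '' T) := hfo.measure_pos volume (hTne.image f)
    have hsubO : f '' T ⊆ Om f := image_mono inter_subset_left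
    rw [Filter.EventuallyEq, ae_restrict_iff' hmeas] at h0
    have h5 : volume (f '' T) = 0 := by
      rw [measure_eq_zero_iff_ae_notMem]
      filter_upwards [h0] with x hx hxT
      obtain ⟨z, hz, rfl⟩ := hxT
      have := hx (hsubO ⟨z, hz, rfl⟩)
      rw [uF_f h U hz.1] at this
      exact hz.2 this
    exact hpos.ne' h5

end Pool.Agent.U924.SC
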