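import Pool.Agent.N229.SC.INJ

/-!
Project SC (Schiffer), part CV: change of variables under the conformal map.
-/

set_option autoImplicit false

open Set Filter Topology MeasureTheory

namespace Pool.Agent.U924.SC

open Pool.Agent.N229.SC

theorem det_mul_complex (a : ℂ) :
    (ContinuousLinearMap.mul ℝ ℂ a : ℂ →L[ℝ] ℂ).det = ‖a‖ ^ 2 := by
  have h1 : (ContinuousLinearMap.mul ℝ ℂ a : ℂ →L[ℝ] ℂ).det
      = LinearMap.det (Algebra.lmul ℝ ℂ a) := by
    unfold ContinuousLinearMap.det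
    congr 1
  rw [h1, ← Algebra.norm_apply, Algebra.norm_complex_apply, Complex.sq_norm]

theorem hasFDerivAt_mul {f : ℂ → ℂ} {d z : ℂ} (h : HasDerivAt f d z) :
    HasFDerivAt f (ContinuousLinearMap.mul ℝ ℂ d) z := by
  have h1 := h.hasFDerivAt.restrictScalars ℝ
  refine h1.congr_fderiv ?_
  ext w
  simp [mul_comm]

theorem conf_hasDerivAt {ρ r : ℝ} {f : ℂ → ℂ} (h : Conf ρ r f) {z : ℂ}
    (hz : z ∈ Metric.ball (0 : ℂ) r) : HasDerivAt f (deriv f z) z :=
  (h.f_diff.differentiableAt (Metric.isOpen_ball.mem_nhds hz)).hasDerivAt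

theorem ball_sub {ρ r : ℝ} {f : ℂ → ℂ} (h : Conf ρ r f) :
    Metric.ball (0 : ℂ) 1 ⊆ Metric.ball 0 r := Metric.ball_subset_ball h.r_gt.le

/-- SC-CV. -/
theorem proof_CV : S_CV := by
  intro ρ r f h ψ
  have hinj : InjOn f (Metric.ball 0 1) := (proof_INJ ρ r f h).2.mono (ball_sub h)
  have hd : ∀ z ∈ Metric.ball (0 : ℂ) 1,
      HasFDerivWithinAt f (ContinuousLinearMap.mul ℝ ℂ (deriv f z)) (Metric.ball 0 1) z :=
    fun z hz => (hasFDerivAt_mul (conf_hasDerivAt h (ball_sub h hz))).hasFDerivWithinAt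
  have := integral_image_eq_integral_abs_det_fderiv_smul volume measurableSet_ball hd hinj ψ
  unfold Om
  rw [this]
  refine integral_congr_ae (Eventually.of_forall fun z => ?_)
  simp only [det_mul_complex, smul_eq_mul]
  rw [abs_of_nonneg (sq_nonneg _)]

end Pool.Agent.U924.SC
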