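import Pool.Agent.N229.SC.Stm

/-!
Project SC (Schiffer), part TR: transfer from `ℂ` to `EuclideanSpace ℝ (Fin 2)`.
-/

set_option autoImplicit false

open Set Filter Topology MeasureTheory

namespace Pool.Agent.U924.SC

open Pool.Agent.N229.SC

/-- SC-TR. -/
theorem proof_TR : S_TR := by
  rintro ⟨Ω, hΩo, hΩb, hΩc, hΩs, ⟨hΩf⟩, hΩl, hΩn, lam, c, u, G, hlam, hu, hG, h1, h2, h3⟩ H
  let T : ℂ ≃ₗᵢ[ℝ] EuclideanSpace ℝ (Fin 2) := Complex.orthonormalBasisOneI.repr
  let Th : ℂ ≃ₜ EuclideanSpace ℝ (Fin 2) := T.toHomeomorph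
  have hTh : ∀ z, Th z = T z := fun _ => rfl
  have hmp : MeasurePreserving T volume volume := T.measurePreserving
  have hmp' : MeasurePreserving T.symm volume volume := T.symm.measurePreserving
  have hme : MeasurableEmbedding T := Th.measurableEmbedding
  have hme' : MeasurableEmbedding T.symm := Th.symm.measurableEmbedding
  have himg : T '' Ω = T.symm ⁻¹' Ω := by
    ext x
    constructor
    · rintro ⟨z, hz, rfl⟩
      simpa using hz
    · intro hx
      exact ⟨T.symm x, hx, by simp⟩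
  have hmp1 : MeasurePreserving T.symm (volume.restrict (T '' Ω)) (volume.restrict Ω) := by
    rw [himg]
    exact hmp'.restrict_preimage_emb hme' Ω
  have hmp2 : MeasurePreserving T (volume.restrict Ω) (volume.restrict (T '' Ω)) :=
    hmp.restrict_image_emb hme Ω
  have hint : ∀ F : EuclideanSpace ℝ (Fin 2) → ℝ, ∫ x in T '' Ω, F x = ∫ z in Ω, F (T z) :=
    fun F => hmp.setIntegral_image_emb hme F Ω
  have hfr : frontier (T '' Ω) = T '' frontier Ω := (Th.image_frontier Ω).symm
  have hphi : ∀ φ : EuclideanSpace ℝ (Fin 2) → ℝ, ContDiff ℝ 1 φ → ∀ z w : ℂ,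
      fderiv ℝ (fun z => φ (T z)) z w = fderiv ℝ φ (T z) (T w) := by
    intro φ hφ z w
    have d1 : HasFDerivAt φ (fderiv ℝ φ (T z)) (T z) :=
      (hφ.differentiable (by norm_num) _).hasFDerivAt
    have d2 : HasFDerivAt (fun z => T z) (T.toContinuousLinearEquiv : ℂ →L[ℝ] _) z :=
      (T.toContinuousLinearEquiv : ℂ →L[ℝ] EuclideanSpace ℝ (Fin 2)).hasFDerivAt
    have d3 := d1.comp z d2
    have d4 : fderiv ℝ (fun z => φ (T z)) z = _ := d3.fderiv
    rw [d4]
    rfl
  have hphic : ∀ φ : EuclideanSpace ℝ (Fin 2) → ℝ, ContDiff ℝ 1 φ →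
      ContDiff ℝ 1 (fun z => φ (T z)) := fun φ hφ => hφ.comp T.contDiff
  have hphis : ∀ φ : EuclideanSpace ℝ (Fin 2) → ℝ, HasCompactSupport φ →
      HasCompactSupport (fun z => φ (T z)) := fun φ hφ => hφ.comp_homeomorph Th
  have key := H (T '' Ω) (Th.isOpenMap _ hΩo) (T.lipschitz.isBounded_image hΩb)
    (hΩc.image _ T.continuous.continuousOn) ?_ ?_ ?_ lam c (fun x => u (T.symm x))
    (fun x => T (G (T.symm x))) hlam (hu.comp_measurePreserving hmp1) ?_ ?_ ?_ ?_
  · -- not a ball
    obtain ⟨a, s, hball⟩ := key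
    refine hΩn (T.symm a) s ?_
    have h4 : T.symm '' (T '' Ω) = T.symm '' Metric.ball a s := by rw [hball]
    rw [← image_comp] at h4
    have h5 : (T.symm ∘ T : ℂ → ℂ) = id := by
      ext z
      simp
    rw [h5, image_id, T.symm.image_ball] at h4
    exact h4
  · -- simply connected
    haveI := hΩs
    exact (Th.image Ω).symm.toHomotopyEquiv.simplyConnectedSpace
  · -- the boundary
    rw [hfr]
    have e1 : frontier Ω ≃ₜ (T '' frontier Ω : Set _) := Th.image _
    have e2 : Metric.sphere (0 : ℂ) 1 ≃ₜ (T '' Metric.sphere (0 : ℂ) 1 : Set _) := Th.image _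
    have e3 : T '' Metric.sphere (0 : ℂ) 1 = Metric.sphere (0 : EuclideanSpace ℝ (Fin 2)) 1 := by
      rw [T.image_sphere, map_zero]
    rw [← e3]
    exact ⟨e1.symm.trans (hΩf.trans e2)⟩
  · -- the charts
    intro p hp
    rw [hfr] at hp
    obtain ⟨q, hq, rfl⟩ := hp
    obtain ⟨e, g, he, hg, heg, s, hs, K, γ, hγ, hx⟩ := hΩl q hq
    refine ⟨T e, T g, by rw [T.norm_map, he], by rw [T.norm_map, hg],
      by rw [T.inner_map_map, heg], s, hs, K, γ, hγ, ?_⟩
    intro x hxb
    obtain ⟨z, rfl⟩ := T.surjective x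
    have hz : z ∈ Metric.ball q s := by
      rw [Metric.mem_ball] at hxb ⊢
      rwa [T.dist_map] at hxb
    rw [T.inner_map_map, T.inner_map_map, ← hx z hz]
    exact T.injective.mem_set_image
  · -- the gradient
    have h4 := hG.comp_measurePreserving hmp1
    exact (T.toContinuousLinearEquiv : ℂ →L[ℝ] EuclideanSpace ℝ (Fin 2)).comp_memLp' h4
  · -- first identity
    intro φ hφ hφc v
    have h4 := h1 (fun z => φ (T z)) (hphic φ hφ) (hphis φ hφc) (T.symm v)
    rw [hint, hint]
    have e1 : (fun z : ℂ => (u (T.symm (T z)) - c) * fderiv ℝ φ (T z) v) =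
        fun z => (u z - c) * fderiv ℝ (fun z => φ (T z)) z (T.symm v) := by
      ext z
      rw [hphi φ hφ, T.symm_apply_apply, T.apply_symm_apply]
    have e2 : (fun z : ℂ => @inner ℝ (EuclideanSpace ℝ (Fin 2)) _ (T (G (T.symm (T z)))) v *
        φ (T z)) = fun z => @inner ℝ ℂ _ (G z) (T.symm v) * φ (T z) := by
      ext z
      rw [T.symm_apply_apply]
      have : @inner ℝ (EuclideanSpace ℝ (Fin 2)) _ (T (G z)) v =
          @inner ℝ ℂ _ (G z) (T.symm v) := by
        conv_lhs => rw [← T.apply_symm_apply v]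
        rw [T.inner_map_map]
      rw [this]
    rw [e1, e2]
    exact h4
  · -- second identity
    intro φ hφ hφc
    have h4 := h2 (fun z => φ (T z)) (hphic φ hφ) (hphis φ hφc)
    rw [hint, hint]
    have e1 : (fun z : ℂ => fderiv ℝ φ (T z) (T (G (T.symm (T z))))) =
        fun z => fderiv ℝ (fun z => φ (T z)) z (G z) := by
      ext z
      rw [hphi φ hφ, T.symm_apply_apply]
    have e2 : (fun z : ℂ => u (T.symm (T z)) * φ (T z)) = fun z => u z * φ (T z) := by
      ext z
      rw [T.symm_apply_apply]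
    rw [e1, e2]
    exact h4
  · -- not zero
    intro h0
    refine h3 ?_
    have h4 := hmp2.quasiMeasurePreserving.ae_eq_comp h0
    have h5 : ((fun x => u (T.symm x)) ∘ T : ℂ → ℝ) = u := by
      ext z
      simp
    rw [h5] at h4
    exact h4

end Pool.Agent.U924.SC
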